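import Pool.Agent.H467R2.Del.Defs

set_option autoImplicit false

namespace H467Del

open H467Aug

lemma dfin_deg {V : Type} [Fintype V] (G H : SimpleGraph V) (h : G ≤ H) (v : V) :
    dg G v ≤ dg H v :=
  Set.ncard_le_ncard (fun _ hw => h hw) (Set.toFinite _)

theorem t_DFIN (h1 : S_DUP) (h2 : S_CHA) (h3 : S_CUT) (h4 : S_EX) (hB : S_BAS) : S_DFIN := by
  classical
  intro n k l hl hlk hkn hn
  have hn3 : 3 ≤ n := by omega
  have hcard : Fintype.card (Fin n) = n := Fintype.card_fin n
  have hcl : cl n l ≤ cl n k := by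
    unfold cl
    have : n * l ≤ n * k := Nat.mul_le_mul_left n hlk.le
    omega
  constructor
  · intro G hG
    have hKC : KC G k := (h3 n (by omega) G k).1 hG
    obtain ⟨-, -, -, -, -, -, -, -, -, -, -, -, hlast⟩ := hB (Fin n) G
    have hdeg := hlast k hKC (by omega)
    obtain ⟨G', hG', hd', he'⟩ := h1 n k l G hlk hn hdeg
    obtain ⟨-, -, -, -, -, hmono, -⟩ := hB (Fin n) G'
    obtain ⟨hec, hnc⟩ := hmono G hG'
    have hfin : (G.edgeSet \ G'.edgeSet).Finite := Set.toFinite _
    have hcardF : cl n k - cl n l ≤ hfin.toFinset.card := by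
      rw [← Set.ncard_eq_toFinset_card _ hfin, hnc]
      omega
    obtain ⟨F, hF, hFc⟩ := Finset.exists_subset_card_eq hcardF
    have hFsub : ∀ e ∈ F, e ∈ G.edgeSet ∧ e ∉ G'.edgeSet := by
      intro e he
      have := hfin.mem_toFinset.1 (hF he)
      exact this
    refine ⟨F, fun e he => (hFsub e he).1, hFc, ?_⟩
    rw [h3 n (by omega)]
    apply h2 (Fin n)
    · intro v
      refine (hd' v).trans (dfin_deg _ _ ?_ v)
      intro a b hab
      rw [SimpleGraph.deleteEdges_adj]
      refine ⟨hG' hab, fun hmem => (hFsub _ hmem).2 ?_⟩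
      exact hab
    · rw [hcard]
      exact hn
  · intro e he
    obtain ⟨G, hKC, hec⟩ := h4 n k (by omega) hkn
    obtain ⟨F, hFs, hFc, hlam⟩ := he G ((h3 n (by omega) G k).2 hKC)
    have hKC' := (h3 n (by omega) _ l).1 hlam
    obtain ⟨-, -, -, hsum, -, hmono, -, -, -, -, -, -, hlast⟩ :=
      hB (Fin n) (G.deleteEdges (F : Set (Sym2 (Fin n))))
    have hdeg := hlast l hKC' (by omega)
    obtain ⟨hle, hnc⟩ := hmono G (SimpleGraph.deleteEdges_le _)
    have hset : G.edgeSet \ (G.deleteEdges (F : Set (Sym2 (Fin n)))).edgeSet = (F : Set _) := by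
      rw [SimpleGraph.edgeSet_deleteEdges]
      ext x
      constructor
      · rintro ⟨hx1, hx2⟩
        by_contra hx
        exact hx2 ⟨hx1, hx⟩
      · intro hx
        exact ⟨hFs hx, fun h => h.2 hx⟩
    rw [hset, Set.ncard_coe_finset, hFc] at hnc
    have hs2 : n * l ≤ 2 * ec (G.deleteEdges (F : Set (Sym2 (Fin n)))) := by
      rw [← hsum]
      calc n * l = ∑ _v : Fin n, l := by rw [Finset.sum_const, Finset.card_univ, hcard, smul_eq_mul]
        _ ≤ _ := Finset.sum_le_sum fun v _ => hdeg v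
    unfold cl at *
    omega

end H467Del
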