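import Pool.Agent.H467R2.Del.Defs

set_option autoImplicit false

namespace H467Del

open H467Aug

theorem dst_dg {V : Type} [Fintype V] (G H : SimpleGraph V) (v : V) :
    dg G v ≤ dg (G \ H) v + dg H v := by
  unfold dg
  refine le_trans (Set.ncard_le_ncard ?_ (Set.toFinite _)) (Set.ncard_union_le _ _)
  intro w hw
  have hw' : G.Adj v w := hw
  by_cases h : H.Adj v w
  · exact Or.inr h
  · left
    show (G \ H).Adj v w
    rw [SimpleGraph.sdiff_adj]
    exact ⟨hw', h⟩

theorem dst_core {V : Type} [Fintype V] (hB : S_BAS) (G H : SimpleGraph V) (j : ℕ) (hH : H ≤ G)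
    (h1 : ∀ v, dg H v + j ≤ dg G v)
    (h2 : cl (Fintype.card V) (j + 1) ≤ ec H + cl (Fintype.card V) j) :
    ∃ G' : SimpleGraph V, G' ≤ G ∧ (∀ v, j ≤ dg G' v) ∧
      ec G' + cl (Fintype.card V) (j + 1) ≤ ec G + cl (Fintype.card V) j := by
  refine ⟨G \ H, sdiff_le, fun v => ?_, ?_⟩
  · have h3 := dst_dg G H v
    have h4 := h1 v
    omega
  · have h5 := (hB V G).2.2.2.2.2.2.2.1 H hH
    omega

theorem dst_mat {V : Type} [Fintype V] (M : SimpleGraph V) (hM : Mat M) (v : V) : dg M v ≤ 1 := by
  unfold dg
  rw [Set.ncard_le_one (Set.toFinite _)]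
  intro a ha b hb
  exact hM v a b ha hb

theorem dst_pos {V : Type} [Fintype V] (M : SimpleGraph V) (v u : V) (h : M.Adj v u) : 1 ≤ dg M v := by
  unfold dg
  exact (Set.ncard_pos (Set.toFinite _)).2 ⟨u, h⟩

theorem t_DST (h1 : S_PMD) (h2 : S_NPM) (hB : S_BAS) : S_DST := by
  intro V _ G j hG hn
  classical
  set n := Fintype.card V with hnd
  rcases Nat.even_or_odd n with he | ho
  · -- even order
    obtain ⟨M, hM, hMG, hMc⟩ := h1 V G he (fun v => by have := hG v; omega)
    refine dst_core hB G M j hMG (fun v => ?_) ?_
    · have := dst_mat M hM v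
      have := hG v
      omega
    · have h3 := (hB V M).2.2.2.1
      have h4 : ∑ _v : V, 1 ≤ ∑ v, dg M v := Finset.sum_le_sum fun v _ => by
        obtain ⟨u, hu⟩ := hMc v
        exact dst_pos M v u hu
      rw [Finset.sum_const, Finset.card_univ, smul_eq_mul, mul_one, ← hnd, h3] at h4
      obtain ⟨m, hm⟩ := he
      unfold cl
      rw [← hnd, hm]
      have e1 : (m + m) * (j + 1) + 1 = 2 * (m * (j + 1)) + 1 := by ring
      have e2 : (m + m) * j + 1 = 2 * (m * j) + 1 := by ring
      have e3 : m * (j + 1) = m * j + m := by ring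
      omega
  · have hn1 : n + 1 ≤ 2 * (j + 1) := by
      obtain ⟨m, hm⟩ := ho
      omega
    have hG1 : ∀ v, Fintype.card V + 1 ≤ 2 * dg G v := fun v => by have := hG v; omega
    obtain ⟨m, hm⟩ := id ho
    rcases Nat.even_or_odd (j + 1) with hje | hjo
    · -- odd order, j + 1 even
      have hpos : 0 < Fintype.card V := by omega
      obtain ⟨w⟩ := Fintype.card_pos_iff.1 hpos
      obtain ⟨M, hM, hMG, hMc, hMw⟩ := h2 V G w ho hG1
      refine dst_core hB G M j hMG (fun v => ?_) ?_
      · have := dst_mat M hM v
        have := hG v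
        omega
      · have h3 := (hB V M).2.2.2.1
        have h4 : ∑ v : V, (if v = w then 0 else 1) ≤ ∑ v, dg M v := Finset.sum_le_sum fun v _ => by
          split_ifs with h
          · exact Nat.zero_le _
          · obtain ⟨u, hu⟩ := hMc v h
            exact dst_pos M v u hu
        have h5 : ∑ v : V, (if v = w then 0 else 1) + 1 = n := by
          have : ∑ v : V, ((if v = w then 0 else 1) + (if v = w then 1 else 0)) = n := by
            rw [hnd, ← Finset.card_univ, Finset.card_eq_sum_ones]
            refine Finset.sum_congr rfl fun v _ => ?_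
            split_ifs <;> rfl
          rw [Finset.sum_add_distrib, Finset.sum_ite_eq' Finset.univ w] at this
          simpa using this
        obtain ⟨i, hi⟩ := hje
        unfold cl
        rw [← hnd, hm]
        have hj : j = 2 * i - 1 := by omega
        have hi1 : 1 ≤ i := by omega
        obtain ⟨i', rfl⟩ := Nat.exists_eq_add_of_le hi1
        have hj' : j = 2 * i' + 1 := by omega
        subst hj'
        have e1 : (2 * m + 1) * (2 * i' + 1 + 1) + 1 = 2 * (2 * m * i' + 2 * m + i' + 1) + 1 := by ring
        have e2 : (2 * m + 1) * (2 * i' + 1) + 1 = 2 * (2 * m * i' + m + i' + 1) := by ring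
        rw [e1, e2]
        omega
    · -- odd order, j + 1 odd
      obtain ⟨v, hv⟩ : ∃ v, j + 2 ≤ dg G v := by
        by_contra hcon
        push Not at hcon
        have h3 := (hB V G).2.2.2.1
        have h4 : ∑ v, dg G v = ∑ _v : V, (j + 1) := Finset.sum_congr rfl fun v _ => by
          have := hG v
          have := hcon v
          omega
        rw [Finset.sum_const, Finset.card_univ, smul_eq_mul, ← hnd, h3] at h4
        have h5 : Odd (n * (j + 1)) := ho.mul hjo
        rw [← h4] at h5
        exact (Nat.not_odd_iff_even.2 (even_two_mul _)) h5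
      obtain ⟨w, hw⟩ : ∃ w, G.Adj v w := by
        have h3 : 0 < dg G v := by omega
        unfold dg at h3
        exact (Set.ncard_pos (Set.toFinite _)).1 h3
      have hvw : v ≠ w := hw.ne
      obtain ⟨M, hM, hMG, hMc, hMw⟩ := h2 V G w ho hG1
      have hMw' : ∀ u, ¬ M.Adj u w := fun u h => hMw u h.symm
      obtain ⟨u0, hu0⟩ := hMc v hvw
      have hu0w : u0 ≠ w := fun h => hMw' v (h ▸ hu0)
      set H : SimpleGraph V := M ⊔ SimpleGraph.edge v w with hH
      have hHadj : ∀ a b, H.Adj a b ↔ M.Adj a b ∨ (a = v ∧ b = w ∨ a = w ∧ b = v) := by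
        intro a b
        rw [hH, SimpleGraph.sup_adj, SimpleGraph.edge_adj]
        constructor
        · rintro (h | ⟨h, _⟩)
          · exact Or.inl h
          · right
            tauto
        · rintro (h | h)
          · exact Or.inl h
          · right
            refine ⟨by tauto, ?_⟩
            rcases h with ⟨rfl, rfl⟩ | ⟨rfl, rfl⟩
            · exact hvw
            · exact hvw.symm
      have hHG : H ≤ G := by
        intro a b h
        rcases (hHadj a b).1 h with h | ⟨rfl, rfl⟩ | ⟨rfl, rfl⟩
        · exact hMG h
        · exact hw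
        · exact hw.symm
      have hdv : dg H v ≤ 2 := by
        have : {x | H.Adj v x} ⊆ ({u0, w} : Set V) := by
          intro x hx
          rcases (hHadj v x).1 hx with h | ⟨_, h⟩ | ⟨h, _⟩
          · exact Or.inl (hM v x u0 h hu0)
          · exact Or.inr h
          · exact absurd h hvw
        unfold dg
        exact (Set.ncard_le_ncard this (Set.toFinite _)).trans (Set.ncard_pair hu0w).le
      have hdv' : 2 ≤ dg H v := by
        have : ({u0, w} : Set V) ⊆ {x | H.Adj v x} := by
          rintro x (rfl | rfl)
          · exact (hHadj v x).2 (Or.inl hu0)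
          · exact (hHadj v x).2 (Or.inr (Or.inl ⟨rfl, rfl⟩))
        unfold dg
        have h3 := Set.ncard_le_ncard this (Set.toFinite _)
        rwa [Set.ncard_pair hu0w] at h3
      have hdo : ∀ x, x ≠ v → dg H x ≤ 1 := by
        intro x hx
        unfold dg
        rw [Set.ncard_le_one (Set.toFinite _)]
        intro a ha b hb
        rcases (hHadj x a).1 ha with h | ⟨h, _⟩ | ⟨h, h'⟩
        · rcases (hHadj x b).1 hb with k | ⟨k, _⟩ | ⟨k, k'⟩
          · exact hM x a b h k
          · exact absurd k hx
          · subst k; exact absurd h (hMw a)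
        · exact absurd h hx
        · subst h
          rcases (hHadj x b).1 hb with k | ⟨k, _⟩ | ⟨k, k'⟩
          · exact absurd k (hMw b)
          · exact absurd k hx
          · rw [h', k']
      have hpo : ∀ x, 1 ≤ dg H x := by
        intro x
        by_cases hx : x = w
        · subst hx
          exact dst_pos H x v ((hHadj x v).2 (Or.inr (Or.inr ⟨rfl, rfl⟩)))
        · obtain ⟨u, hu⟩ := hMc x hx
          exact dst_pos H x u ((hHadj x u).2 (Or.inl hu))
      refine dst_core hB G H j hHG (fun x => ?_) ?_
      · by_cases hx : x = v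
        · subst hx; omega
        · have := hdo x hx
          have := hG x
          omega
      · have h3 := (hB V H).2.2.2.1
        have h4 : ∑ x : V, (1 + (if x = v then 1 else 0)) ≤ ∑ x, dg H x :=
          Finset.sum_le_sum fun x _ => by
            split_ifs with h
            · subst h; exact hdv'
            · exact hpo x
        rw [Finset.sum_add_distrib, Finset.sum_const, Finset.card_univ, smul_eq_mul, mul_one,
          Finset.sum_ite_eq' Finset.univ v, if_pos (Finset.mem_univ v), ← hnd, h3, hm] at h4
        obtain ⟨i, hi⟩ := hjo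
        have hj : j = 2 * i := by omega
        subst hj
        unfold cl
        rw [← hnd, hm]
        have e1 : (2 * m + 1) * (2 * i + 1) + 1 = 2 * (2 * m * i + m + i + 1) := by ring
        have e2 : (2 * m + 1) * (2 * i) + 1 = 2 * (2 * m * i + i) + 1 := by ring
        rw [e1, e2]
        omega

end H467Del
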