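import Pool.Agent.H467R2.Del.Defs

/-!
Task DUP: all steps.
-/

set_option autoImplicit false

namespace H467Del

open H467Aug

theorem t_DUP (h : S_DST) : S_DUP := by
  have key : ∀ (m n l : ℕ) (G : SimpleGraph (Fin n)), n ≤ 2 * l + 1 →
      (∀ v, l + 1 + m ≤ dg G v) → ∃ G' : SimpleGraph (Fin n), G' ≤ G ∧ (∀ v, l ≤ dg G' v) ∧
        ec G' + cl n (l + 1 + m) ≤ ec G + cl n l := by
    intro m
    induction m with
    | zero =>
      intro n l G hn hG
      have h1 := h (Fin n) G l (fun v => hG v) (by rw [Fintype.card_fin]; omega)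
      rw [Fintype.card_fin] at h1
      exact h1
    | succ m ih =>
      intro n l G hn hG
      obtain ⟨G1, h1, h2, h3⟩ := h (Fin n) G (l + 1 + m) (fun v => hG v)
        (by rw [Fintype.card_fin]; omega)
      rw [Fintype.card_fin] at h3
      obtain ⟨G2, h4, h5, h6⟩ := ih n l G1 hn h2
      refine ⟨G2, h4.trans h1, h5, ?_⟩
      have e : l + 1 + (m + 1) = l + 1 + m + 1 := rfl
      rw [e]
      omega
  intro n k l G hlk hn hG
  obtain ⟨m, rfl⟩ : ∃ m, k = l + 1 + m := ⟨k - (l + 1), by omega⟩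
  exact key m n l G hn hG

end H467Del
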