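import Pool.Agent.H467R2.Aug.DefsC

/-!
# MP_60abc6_co: deleting edges from a k-edge-connected graph while keeping l-edge-connectivity
-/

set_option autoImplicit false

namespace H467Del

open H467Aug

/-- every `k`-edge-connected graph of order `n` has a set of `e` edges whose deletion leaves an
`l`-edge-connected graph -/
def DWorks (n k l e : ℕ) : Prop :=
  ∀ G : SimpleGraph (Fin n), k ≤ lam G → ∃ F : Finset (Sym2 (Fin n)),
    (F : Set (Sym2 (Fin n))) ⊆ G.edgeSet ∧ F.card = e ∧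
      l ≤ lam (G.deleteEdges (F : Set (Sym2 (Fin n))))

/-- PMD: perfect matchings. -/
def S_PMD : Prop := ∀ (V : Type) [Fintype V] (G : SimpleGraph V), Even (Fintype.card V) →
  (∀ v, Fintype.card V ≤ 2 * dg G v) → PM G

/-- NPM: matchings which miss exactly a given vertex. -/
def S_NPM : Prop := ∀ (V : Type) [Fintype V] (G : SimpleGraph V) (w : V),
  Odd (Fintype.card V) → (∀ v, Fintype.card V + 1 ≤ 2 * dg G v) →
  ∃ M : SimpleGraph V, Mat M ∧ M ≤ G ∧ (∀ v, v ≠ w → ∃ u, M.Adj v u) ∧ ∀ u, ¬ M.Adj w u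

/-- DST: one step. -/
def S_DST : Prop := ∀ (V : Type) [Fintype V] (G : SimpleGraph V) (j : ℕ),
  (∀ v, j + 1 ≤ dg G v) → Fintype.card V ≤ 2 * (j + 1) →
  ∃ G' : SimpleGraph V, G' ≤ G ∧ (∀ v, j ≤ dg G' v) ∧
    ec G' + cl (Fintype.card V) (j + 1) ≤ ec G + cl (Fintype.card V) j

/-- DUP: all steps. -/
def S_DUP : Prop := ∀ (n k l : ℕ) (G : SimpleGraph (Fin n)), l < k → n ≤ 2 * l + 1 →
  (∀ v, k ≤ dg G v) → ∃ G' : SimpleGraph (Fin n), G' ≤ G ∧ (∀ v, l ≤ dg G' v) ∧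
    ec G' + cl n k ≤ ec G + cl n l

/-- DFIN: the range `n ≤ 2 l + 1`. -/
def S_DFIN : Prop := ∀ n k l : ℕ, 1 ≤ l → l < k → k < n → n ≤ 2 * l + 1 →
  IsGreatest {e | DWorks n k l e} (cl n k - cl n l)

/-- DONE: `l = 1`. -/
def S_DONE : Prop := ∀ n k : ℕ, 2 ≤ k → k < n →
  IsGreatest {e | DWorks n k 1 e} (cl n k - (n - 1))

end H467Del
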