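import Pool.Agent.H467R2.Aug.DefsC

/-!
# MP_60abc6_co, Q1: deleting edges from a k-connected graph while keeping l-connectivity,
in the range `4 (n - l) ^ 3 ≤ n`
-/

set_option autoImplicit false

namespace H467Del

open H467Aug

/-- The vertex-connectivity `κ(G)`: the least number of vertices whose deletion leaves a
disconnected graph or at most one vertex. -/
noncomputable def kap {V : Type} [Fintype V] (G : SimpleGraph V) : ℕ :=
  sInf {m | ∃ S : Finset V, S.card = m ∧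
    (¬ (G.induce {v | v ∉ S}).Connected ∨ Fintype.card V ≤ S.card + 1)}

/-- every `k`-connected graph of order `n` has a set of `e` edges whose deletion leaves an
`l`-connected graph -/
def VWorks (n k l e : ℕ) : Prop :=
  ∀ G : SimpleGraph (Fin n), k ≤ kap G → ∃ F : Finset (Sym2 (Fin n)),
    (F : Set (Sym2 (Fin n))) ⊆ G.edgeSet ∧ F.card = e ∧
      l ≤ kap (G.deleteEdges (F : Set (Sym2 (Fin n))))

/-- every complete bipartite subgraph of `H` has at most `D + 1` vertices -/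
def KB {V : Type} (H : SimpleGraph V) (D : ℕ) : Prop :=
  ∀ A B : Set V, A.Nonempty → B.Nonempty → (∀ a ∈ A, ∀ b ∈ B, H.Adj a b) →
    A.ncard + B.ncard ≤ D + 1

/-- no edge of `N` lies on a cycle of length four of `H ⊔ N` -/
def C4 {V : Type} (N H : SimpleGraph V) : Prop :=
  ∀ a b c d, N.Adj a b → (H ⊔ N).Adj b c → (H ⊔ N).Adj c d → (H ⊔ N).Adj d a →
    a ≠ c → b ≠ d → False

/-- KCH: vertex-connectivity by the complement. -/
def S_KCH : Prop := ∀ (n l : ℕ) (G : SimpleGraph (Fin n)), l + 1 ≤ n → 2 ≤ n →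
  (l ≤ kap G ↔ KB Gᶜ (n - 1 - l))

/-- GM: good matchings. -/
def S_GM : Prop := ∀ (V : Type) [Fintype V] (H : SimpleGraph V) (D : ℕ) (W : Set V),
  (∀ v, dg H v ≤ D) → Even W.ncard → 3 * (D ^ 3 + D ^ 2 + D + 1) + D < W.ncard →
  ∃ M : SimpleGraph V, Mat M ∧ (∀ x y, M.Adj x y → x ∈ W) ∧ (∀ x ∈ W, ∃ y, M.Adj x y) ∧
    Dis M H ∧ C4 M H

/-- KBN: adding the new edges. -/
def S_KBN : Prop := ∀ (V : Type) [Fintype V] (H N : SimpleGraph V) (D : ℕ), KB H D → C4 N H →
  (∀ v, dg H v + dg N v ≤ D + 1) → KB (H ⊔ N) (D + 1)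

/-- KST: one step. -/
def S_KST : Prop := ∀ (V : Type) [Fintype V] (H : SimpleGraph V) (D : ℕ), KB H D →
  4 * (D + 2) ^ 3 ≤ Fintype.card V →
  ∃ H' : SimpleGraph V, H ≤ H' ∧ KB H' (D + 1) ∧
    ec H + fl (Fintype.card V) (D + 1) ≤ ec H' + fl (Fintype.card V) D

/-- KUP: all steps. -/
def S_KUP : Prop := ∀ (V : Type) [Fintype V] (H : SimpleGraph V) (D b : ℕ), KB H D → D ≤ b →
  4 * (b + 1) ^ 3 ≤ Fintype.card V →
  ∃ H' : SimpleGraph V, H ≤ H' ∧ KB H' b ∧
    ec H + fl (Fintype.card V) b ≤ ec H' + fl (Fintype.card V) D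

/-- KFIN: the theorem. -/
def S_KFIN : Prop := ∀ n k l : ℕ, 1 ≤ l → l < k → k < n → 4 * (n - l) ^ 3 ≤ n →
  IsGreatest {e | VWorks n k l e} (cl n k - cl n l)

end H467Del
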