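import Pool.Agent.H467R2.Del.DefsV

/-!
# Task GM: good matchings
-/

set_option autoImplicit false

namespace H467Del

open H467Aug

section

variable {V : Type} [Fintype V]

open Classical in
/-- neighbours -/
noncomputable def gmN (H : SimpleGraph V) (v : V) : Finset V :=
  Finset.univ.filter (fun w => H.Adj v w)

open Classical in
/-- covered vertices -/
noncomputable def gmC (M : SimpleGraph V) : Finset V :=
  Finset.univ.filter (fun x => ∃ y, M.Adj x y)

theorem gm_memN (H : SimpleGraph V) (v w : V) : w ∈ gmN H v ↔ H.Adj v w := by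
  simp [gmN]

theorem gm_memC (M : SimpleGraph V) (v : V) : v ∈ gmC M ↔ ∃ y, M.Adj v y := by
  simp [gmC]

theorem gm_cardN (H : SimpleGraph V) (v : V) : (gmN H v).card = dg H v := by
  have : {w | H.Adj v w} = (gmN H v : Set V) := by
    ext w
    simp [gmN]
  rw [dg, this, Set.ncard_coe_finset]

open Classical in
/-- forbidden partners -/
noncomputable def gmR (M H : SimpleGraph V) (x : V) : Finset V :=
  insert x (gmN H x ∪ (gmN H x).biUnion fun d => (gmN H d ∪ gmN M d).biUnion fun c => gmN H c)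

theorem gm_memR (M H : SimpleGraph V) (x y : V) :
    y ∈ gmR M H x ↔ y = x ∨ H.Adj x y ∨
      ∃ d, H.Adj x d ∧ ∃ c, (H.Adj d c ∨ M.Adj d c) ∧ H.Adj c y := by
  simp only [gmR, Finset.mem_insert, Finset.mem_union, Finset.mem_biUnion, gm_memN]

theorem gm_matN {M : SimpleGraph V} (hM : Mat M) (v : V) : (gmN M v).card ≤ 1 := by
  rw [Finset.card_le_one]
  intro a ha b hb
  rw [gm_memN] at ha hb
  exact hM v a b ha hb

theorem gm_cardR {M H : SimpleGraph V} {D : ℕ} (hM : Mat M) (hD : ∀ v, dg H v ≤ D) (x : V) :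
    (gmR M H x).card ≤ D ^ 3 + D ^ 2 + D + 1 := by
  classical
  have hN : ∀ v, (gmN H v).card ≤ D := fun v => by
    rw [gm_cardN]
    exact hD v
  have h1 : ∀ d ∈ gmN H x, ((gmN H d ∪ gmN M d).biUnion fun c => gmN H c).card ≤ (D + 1) * D := by
    intro d _
    refine (Finset.card_biUnion_le_card_mul _ _ D fun c _ => hN c).trans ?_
    refine Nat.mul_le_mul_right D ?_
    refine (Finset.card_union_le _ _).trans ?_
    exact add_le_add (hN d) (gm_matN hM d)
  have h2 : ((gmN H x).biUnion fun d => (gmN H d ∪ gmN M d).biUnion fun c => gmN H c).card ≤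
      D * ((D + 1) * D) := by
    refine (Finset.card_biUnion_le_card_mul _ _ ((D + 1) * D) h1).trans ?_
    exact Nat.mul_le_mul_right _ (hN x)
  have h3 : (gmR M H x).card ≤ (D + D * ((D + 1) * D)) + 1 := by
    unfold gmR
    refine (Finset.card_insert_le _ _).trans ?_
    refine Nat.add_le_add_right ?_ 1
    exact (Finset.card_union_le _ _).trans (add_le_add (hN x) h2)
  refine h3.trans (le_of_eq ?_)
  ring

/-- adding an edge -/
def gmAdd (M : SimpleGraph V) (x u : V) (h : x ≠ u) : SimpleGraph V where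
  Adj a b := M.Adj a b ∨ (a = x ∧ b = u) ∨ (a = u ∧ b = x)
  symm := ⟨by
    intro a b h
    rcases h with h | h | h
    · exact Or.inl h.symm
    · exact Or.inr (Or.inr ⟨h.2, h.1⟩)
    · exact Or.inr (Or.inl ⟨h.2, h.1⟩)⟩
  loopless := ⟨by
    intro a h'
    rcases h' with h' | h' | h'
    · exact M.irrefl h'
    · exact h (h'.1.symm.trans h'.2)
    · exact h (h'.2.symm.trans h'.1)⟩

/-- deleting two vertices -/
def gmDel (M : SimpleGraph V) (y w : V) : SimpleGraph V where
  Adj a b := M.Adj a b ∧ a ≠ y ∧ a ≠ w ∧ b ≠ y ∧ b ≠ w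
  symm := ⟨by
    intro a b h
    exact ⟨h.1.symm, h.2.2.2.1, h.2.2.2.2, h.2.1, h.2.2.1⟩⟩
  loopless := ⟨by
    intro a h
    exact M.irrefl h.1⟩

/-- allowed matchings -/
structure gmA (M H : SimpleGraph V) (W : Finset V) : Prop where
  mat : Mat M
  inW : ∀ x y, M.Adj x y → x ∈ W
  dis : Dis M H
  c4 : C4 M H

theorem gm_sub {M M' H : SimpleGraph V} {W : Finset V} (hA : gmA M H W)
    (h : ∀ a b, M'.Adj a b → M.Adj a b) : gmA M' H W := by
  refine ⟨fun u v w h1 h2 => hA.mat u v w (h _ _ h1) (h _ _ h2), fun x y h1 => hA.inW x y (h _ _ h1),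
    fun u v h1 => hA.dis u v (h _ _ h1), ?_⟩
  intro a b c d h1 h2 h3 h4 h5 h6
  refine hA.c4 a b c d (h _ _ h1) ?_ ?_ ?_ h5 h6
  · rw [SimpleGraph.sup_adj] at h2 ⊢
    exact h2.imp_right (h _ _)
  · rw [SimpleGraph.sup_adj] at h3 ⊢
    exact h3.imp_right (h _ _)
  · rw [SimpleGraph.sup_adj] at h4 ⊢
    exact h4.imp_right (h _ _)

theorem gm_key {M H : SimpleGraph V} {W : Finset V} (hA : gmA M H W) {x u : V} (hne : x ≠ u)
    (hx : x ∈ W) (hu : u ∈ W) (hxc : ∀ y, ¬ M.Adj x y) (huc : ∀ y, ¬ M.Adj u y)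
    (hR : u ∉ gmR M H x) : gmA (gmAdd M x u hne) H W := by
  rw [gm_memR] at hR
  push Not at hR
  obtain ⟨-, hR1, hR2⟩ := hR
  have hR3 : ∀ d c, H.Adj x d → (H.Adj d c ∨ M.Adj d c) → H.Adj c u → False :=
    fun d c h1 h2 h3 => hR2 d h1 c h2 h3
  have hxc' : ∀ y, ¬ M.Adj y x := fun y h => hxc y h.symm
  have huc' : ∀ y, ¬ M.Adj y u := fun y h => huc y h.symm
  have hmat : Mat (gmAdd M x u hne) := by
    intro a b c h1 h2
    rcases h1 with h1 | ⟨h1, h1'⟩ | ⟨h1, h1'⟩ <;> rcases h2 with h2 | ⟨h2, h2'⟩ | ⟨h2, h2'⟩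
    · exact hA.mat a b c h1 h2
    · subst h2
      exact absurd h1 (hxc _)
    · subst h2
      exact absurd h1 (huc _)
    · subst h1
      exact absurd h2 (hxc _)
    · rw [h1', h2']
    · exact absurd (h1.symm.trans h2) hne
    · subst h1
      exact absurd h2 (huc _)
    · exact absurd (h2.symm.trans h1) hne
    · rw [h1', h2']
  refine ⟨hmat, ?_, ?_, ?_⟩
  · intro a b h
    rcases h with h | ⟨h, h'⟩ | ⟨h, h'⟩
    · exact hA.inW a b h
    · rw [h]
      exact hx
    · rw [h]
      exact hu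
  · intro a b h hH
    rcases h with h | ⟨h, h'⟩ | ⟨h, h'⟩
    · exact hA.dis a b h hH
    · subst h h'
      exact hR1 hH
    · subst h h'
      exact hR1 hH.symm
  · intro a b c d hab hbc hcd hda hac hbd
    rw [SimpleGraph.sup_adj] at hbc hcd hda
    have hbc' : H.Adj b c := by
      rcases hbc with h | h
      · exact h
      · exact absurd (hmat b a c hab.symm h) hac
    have hda' : H.Adj d a := by
      rcases hda with h | h
      · exact h
      · exact absurd (hmat a b d hab h.symm) hbd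
    have hcd' : (H.Adj c d ∨ M.Adj c d) ∨ (c = x ∧ d = u) ∨ (c = u ∧ d = x) := by
      rcases hcd with h | h | h
      · exact Or.inl (Or.inl h)
      · exact Or.inl (Or.inr h)
      · exact Or.inr h
    rcases hab with hab | ⟨h1, h2⟩ | ⟨h1, h2⟩
    · rcases hcd' with h | ⟨h1, h2⟩ | ⟨h1, h2⟩
      · refine hA.c4 a b c d hab ?_ ?_ ?_ hac hbd
        · rw [SimpleGraph.sup_adj]
          exact Or.inl hbc'
        · rw [SimpleGraph.sup_adj]
          exact h
        · rw [SimpleGraph.sup_adj]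
          exact Or.inl hda'
      · subst h1 h2
        exact hR3 b a hbc'.symm (Or.inr hab.symm) hda'.symm
      · subst h1 h2
        exact hR3 a b hda' (Or.inr hab) hbc'
    · subst h1 h2
      rcases hcd' with h | ⟨h1, h2⟩ | ⟨h1, h2⟩
      · refine hR3 d c hda'.symm ?_ hbc'.symm
        exact h.imp (fun h => h.symm) (fun h => h.symm)
      · exact hac h1.symm
      · rw [h1] at hbc'
        exact H.irrefl hbc'
    · subst h1 h2
      rcases hcd' with h | ⟨h1, h2⟩ | ⟨h1, h2⟩
      · exact hR3 c d hbc' h hda'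
      · rw [h1] at hbc'
        exact H.irrefl hbc'
      · exact hac h1.symm

theorem gm_addC (M : SimpleGraph V) (x u : V) (h : x ≠ u) (z : V) :
    (∃ y, (gmAdd M x u h).Adj z y) ↔ (∃ y, M.Adj z y) ∨ z = x ∨ z = u := by
  constructor
  · rintro ⟨y, h1 | h1 | h1⟩
    · exact Or.inl ⟨y, h1⟩
    · exact Or.inr (Or.inl h1.1)
    · exact Or.inr (Or.inr h1.1)
  · rintro (⟨y, h1⟩ | h1 | h1)
    · exact ⟨y, Or.inl h1⟩
    · exact ⟨u, Or.inr (Or.inl ⟨h1, rfl⟩)⟩
    · exact ⟨x, Or.inr (Or.inr ⟨h1, rfl⟩)⟩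

theorem gm_delC {M : SimpleGraph V} (hM : Mat M) {y w : V} (h : M.Adj y w) (z : V) :
    (∃ t, (gmDel M y w).Adj z t) ↔ (∃ t, M.Adj z t) ∧ z ≠ y ∧ z ≠ w := by
  constructor
  · rintro ⟨t, h1⟩
    exact ⟨⟨t, h1.1⟩, h1.2.1, h1.2.2.1⟩
  · rintro ⟨⟨t, h1⟩, h2, h3⟩
    refine ⟨t, h1, h2, h3, ?_, ?_⟩
    · rintro rfl
      exact h3 (hM t z w h1.symm h)
    · rintro rfl
      exact h2 (hM t z y h1.symm h.symm)

theorem gm_step {M H : SimpleGraph V} {W : Finset V} {D : ℕ} (hA : gmA M H W)
    (hD : ∀ v, dg H v ≤ D) (hW : 3 * (D ^ 3 + D ^ 2 + D + 1) + D < W.card)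
    (hU : (gmC M).card + 2 ≤ W.card) :
    ∃ M' : SimpleGraph V, gmA M' H W ∧ (gmC M').card = (gmC M).card + 2 := by
  classical
  set r := D ^ 3 + D ^ 2 + D + 1 with hr
  have hCW : gmC M ⊆ W := by
    intro z hz
    rw [gm_memC] at hz
    obtain ⟨y, hy⟩ := hz
    exact hA.inW z y hy
  have hUcard : (W \ gmC M).card + (gmC M).card = W.card := Finset.card_sdiff_add_card_eq_card hCW
  have hmemU : ∀ z, z ∈ W \ gmC M → z ∈ W ∧ ∀ y, ¬ M.Adj z y := by
    intro z hz
    rw [Finset.mem_sdiff, gm_memC] at hz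
    exact ⟨hz.1, fun y hy => hz.2 ⟨y, hy⟩⟩
  have hfin : ∀ (M' : SimpleGraph V) (x u : V), x ≠ u → (∀ y, ¬ M.Adj x y) →
      (∀ y, ¬ M.Adj u y) → (∀ z, (∃ y, M'.Adj z y) ↔ (∃ y, M.Adj z y) ∨ z = x ∨ z = u) →
      (gmC M').card = (gmC M).card + 2 := by
    intro M' x u hne hx hu hz
    have h1 : gmC M' = insert x (insert u (gmC M)) := by
      ext z
      rw [Finset.mem_insert, Finset.mem_insert, gm_memC, gm_memC, hz z]
      tauto
    rw [h1, Finset.card_insert_of_notMem, Finset.card_insert_of_notMem]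
    · rw [gm_memC]
      rintro ⟨y, hy⟩
      exact hu y hy
    · rw [Finset.mem_insert, gm_memC]
      rintro (h | ⟨y, hy⟩)
      · exact hne h
      · exact hx y hy
  by_cases hcase : r < (W \ gmC M).card
  · obtain ⟨x, hx⟩ : (W \ gmC M).Nonempty := by
      rw [← Finset.card_pos]
      omega
    obtain ⟨u, hu, huR⟩ := Finset.exists_mem_notMem_of_card_lt_card
      (lt_of_le_of_lt (gm_cardR hA.mat hD x) hcase)
    have hne : x ≠ u := by
      rintro rfl
      exact huR ((gm_memR _ _ _ _).2 (Or.inl rfl))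
    refine ⟨gmAdd M x u hne, gm_key hA hne (hmemU x hx).1 (hmemU u hu).1 (hmemU x hx).2
      (hmemU u hu).2 huR, ?_⟩
    exact hfin _ x u hne (hmemU x hx).2 (hmemU u hu).2 (gm_addC M x u hne)
  · have h2 : 1 < (W \ gmC M).card := by omega
    obtain ⟨x, hx, u, hu, hne⟩ := Finset.one_lt_card.1 h2
    have hxM := (hmemU x hx).2
    have huM := (hmemU u hu).2
    have hbad : (gmR M H x ∪ (gmR M H u ∪ gmN H x).biUnion (fun w => gmN M w)).card ≤
        2 * r + D := by
      refine (Finset.card_union_le _ _).trans ?_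
      have h3 : ((gmR M H u ∪ gmN H x).biUnion (fun w => gmN M w)).card ≤ (r + D) * 1 := by
        refine (Finset.card_biUnion_le_card_mul _ _ 1 fun c _ => gm_matN hA.mat c).trans ?_
        refine Nat.mul_le_mul_right 1 ?_
        refine (Finset.card_union_le _ _).trans ?_
        refine add_le_add (gm_cardR hA.mat hD u) ?_
        rw [gm_cardN]
        exact hD x
      have h4 := gm_cardR hA.mat hD x
      omega
    obtain ⟨y, hy, hyb⟩ := Finset.exists_mem_notMem_of_card_lt_card
      (show (gmR M H x ∪ (gmR M H u ∪ gmN H x).biUnion (fun w => gmN M w)).card <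
        (gmC M).card by omega)
    rw [gm_memC] at hy
    obtain ⟨w, hyw⟩ := hy
    rw [Finset.mem_union, Finset.mem_biUnion] at hyb
    push Not at hyb
    obtain ⟨hyR, hyb⟩ := hyb
    have hwR : w ∉ gmR M H u := by
      intro hw
      exact hyb w (Finset.mem_union_left _ hw) ((gm_memN _ _ _).2 hyw.symm)
    have hwN : ¬ H.Adj x w := by
      intro hw
      exact hyb w (Finset.mem_union_right _ ((gm_memN _ _ _).2 hw)) ((gm_memN _ _ _).2 hyw.symm)
    have hxy : x ≠ y := by
      rintro rfl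
      exact hxM w hyw
    have hxw : x ≠ w := by
      rintro rfl
      exact hxM y hyw.symm
    have huy : u ≠ y := by
      rintro rfl
      exact huM w hyw
    have huw : u ≠ w := by
      rintro rfl
      exact huM y hyw.symm
    have hyw' : y ≠ w := hyw.ne
    have hA0 : gmA (gmDel M y w) H W := gm_sub hA fun a b h => h.1
    have hyR' : y ∉ gmR (gmDel M y w) H x := by
      intro h
      apply hyR
      rw [gm_memR] at h ⊢
      rcases h with h | h | ⟨d, h1, c, h2, h3⟩
      · exact Or.inl h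
      · exact Or.inr (Or.inl h)
      · exact Or.inr (Or.inr ⟨d, h1, c, h2.imp_right fun h => h.1, h3⟩)
    have hA1 : gmA (gmAdd (gmDel M y w) x y hxy) H W := by
      refine gm_key hA0 hxy (hmemU x hx).1 (hA.inW y w hyw) ?_ ?_ hyR'
      · intro z hz
        exact hxM z hz.1
      · intro z hz
        exact hz.2.1 rfl
    have hwR' : w ∉ gmR (gmAdd (gmDel M y w) x y hxy) H u := by
      intro h
      rw [gm_memR] at h
      rcases h with h | h | ⟨d, h1, c, h2, h3⟩
      · exact huw h.symm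
      · exact hwR ((gm_memR _ _ _ _).2 (Or.inr (Or.inl h)))
      · rcases h2 with h2 | h2 | h2 | h2
        · exact hwR ((gm_memR _ _ _ _).2 (Or.inr (Or.inr ⟨d, h1, c, Or.inl h2, h3⟩)))
        · exact hwR ((gm_memR _ _ _ _).2 (Or.inr (Or.inr ⟨d, h1, c, Or.inr h2.1, h3⟩)))
        · rw [h2.2] at h3
          exact hA.dis y w hyw h3
        · rw [h2.2] at h3
          exact hwN h3
    have hA2 : gmA (gmAdd (gmAdd (gmDel M y w) x y hxy) u w huw) H W := by
      refine gm_key hA1 huw (hmemU u hu).1 (hA.inW w y hyw.symm) ?_ ?_ hwR'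
      · intro z hz
        rcases hz with hz | hz | hz
        · exact huM z hz.1
        · exact hne hz.1.symm
        · exact huy hz.1
      · intro z hz
        rcases hz with hz | hz | hz
        · exact hz.2.2.1 rfl
        · exact hxw hz.1.symm
        · exact hyw' hz.1.symm
    refine ⟨_, hA2, ?_⟩
    refine hfin _ x u hne hxM huM fun z => ?_
    rw [gm_addC, gm_addC, gm_delC hA.mat hyw]
    constructor
    · rintro ((⟨h, -, -⟩ | h | h) | h | h)
      · exact Or.inl h
      · exact Or.inr (Or.inl h)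
      · rw [h]
        exact Or.inl ⟨w, hyw⟩
      · exact Or.inr (Or.inr h)
      · rw [h]
        exact Or.inl ⟨y, hyw.symm⟩
    · rintro (h | h | h)
      · by_cases h1 : z = y
        · exact Or.inl (Or.inr (Or.inr h1))
        · by_cases h2 : z = w
          · exact Or.inr (Or.inr h2)
          · exact Or.inl (Or.inl ⟨h, h1, h2⟩)
      · exact Or.inl (Or.inr (Or.inl h))
      · exact Or.inr (Or.inl h)

end

theorem t_GM : S_GM := by
  intro V _ H D W hD hev hW
  classical
  have hWc : W.ncard = W.toFinset.card := Set.ncard_eq_toFinset_card' W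
  rw [hWc] at hev hW
  obtain ⟨m, hm⟩ := hev
  have key : ∀ j : ℕ, j ≤ m → ∃ M : SimpleGraph V, gmA M H W.toFinset ∧ (gmC M).card = 2 * j := by
    intro j
    induction j with
    | zero =>
      intro _
      refine ⟨⊥, ⟨?_, ?_, ?_, ?_⟩, ?_⟩
      · intro u v w h
        exact absurd h (by simp)
      · intro u v h
        exact absurd h (by simp)
      · intro u v h
        exact absurd h (by simp)
      · intro a b c d h
        exact absurd h (by simp)
      · rw [Nat.mul_zero, Finset.card_eq_zero]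
        ext z
        rw [gm_memC]
        simp
    | succ j ih =>
      intro hj
      obtain ⟨M, hA, hc⟩ := ih (by omega)
      obtain ⟨M', hA', hc'⟩ := gm_step hA hD hW (by omega)
      exact ⟨M', hA', by omega⟩
  obtain ⟨M, hA, hc⟩ := key m le_rfl
  have hCW : gmC M ⊆ W.toFinset := by
    intro z hz
    rw [gm_memC] at hz
    obtain ⟨y, hy⟩ := hz
    exact hA.inW z y hy
  have hEq : gmC M = W.toFinset := Finset.eq_of_subset_of_card_le hCW (by omega)
  refine ⟨M, hA.mat, fun x y h => Set.mem_toFinset.1 (hA.inW x y h), fun x hx => ?_, hA.dis, hA.c4⟩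
  have : x ∈ gmC M := by
    rw [hEq]
    exact Set.mem_toFinset.2 hx
  exact (gm_memC M x).1 this

end H467Del
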