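import Pool.Agent.H467R2.Del.DefsV

set_option autoImplicit false

namespace H467Del

open H467Aug

theorem kbnb_one {V : Type} [Fintype V] (H N : SimpleGraph V) (D : ℕ)
    (hd : ∀ v, dg H v + dg N v ≤ D + 1) (A B : Set V) (hA : A.Nonempty)
    (hAB : ∀ a ∈ A, ∀ b ∈ B, (H ⊔ N).Adj a b) (h1 : A.ncard ≤ 1) :
    A.ncard + B.ncard ≤ D + 1 + 1 := by
  obtain ⟨v, hv⟩ := hA
  have h2 : B ⊆ {w | H.Adj v w} ∪ {w | N.Adj v w} := by
    intro w hw
    exact hAB v hv w hw
  have h3 : B.ncard ≤ dg H v + dg N v :=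
    le_trans (Set.ncard_le_ncard h2 (Set.toFinite _)) (Set.ncard_union_le _ _)
  have h4 := hd v
  omega

theorem t_KBNb : S_KBN := by
  intro V _ H N D hK hC hd A B hA hB hAB
  rcases Nat.lt_or_ge 1 A.ncard with hA2 | hA1
  · rcases Nat.lt_or_ge 1 B.ncard with hB2 | hB1
    · have h := hK A B hA hB (by
        intro a ha b hb
        rcases hAB a ha b hb with h | h
        · exact h
        · exfalso
          obtain ⟨a', ha', hne⟩ := Set.exists_ne_of_one_lt_ncard hA2 a
          obtain ⟨b', hb', hne'⟩ := Set.exists_ne_of_one_lt_ncard hB2 b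
          exact hC a b a' b' h (hAB a' ha' b hb).symm (hAB a' ha' b' hb')
            (hAB a ha b' hb').symm hne.symm hne'.symm)
      omega
    · have h := kbnb_one H N D hd B A hB (fun b hb a ha => (hAB a ha b hb).symm) hB1
      omega
  · exact kbnb_one H N D hd A B hA hAB hA1

end H467Del
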