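import Pool.Agent.H467R2.Del.DefsV

set_option autoImplicit false

namespace H467Del

open H467Aug

theorem kch_a {V : Type} (G : SimpleGraph V) (T : Set V) (hT : T.Nonempty)
    (h : ¬ (G.induce T).Connected) : ∃ A B : Set V, A.Nonempty ∧ B.Nonempty ∧ A ∪ B = T ∧
      Disjoint A B ∧ ∀ a ∈ A, ∀ b ∈ B, ¬ G.Adj a b := by
  have h1 : ¬ (G.induce T).Preconnected := by
    intro h2
    obtain ⟨t, ht⟩ := hT
    have : Nonempty T := ⟨⟨t, ht⟩⟩
    exact h (SimpleGraph.Connected.mk h2)
  unfold SimpleGraph.Preconnected at h1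
  push Not at h1
  obtain ⟨u, v, huv⟩ := h1
  refine ⟨{x | ∃ hx : x ∈ T, (G.induce T).Reachable u ⟨x, hx⟩},
    {x | ∃ hx : x ∈ T, ¬ (G.induce T).Reachable u ⟨x, hx⟩}, ⟨u, u.2, ?_⟩, ⟨v, v.2, huv⟩,
    ?_, ?_, ?_⟩
  · exact SimpleGraph.Reachable.refl _
  · ext x
    constructor
    · rintro (⟨hx, _⟩ | ⟨hx, _⟩) <;> exact hx
    · intro hx
      by_cases h2 : (G.induce T).Reachable u ⟨x, hx⟩
      · exact Or.inl ⟨hx, h2⟩
      · exact Or.inr ⟨hx, h2⟩
  · rw [Set.disjoint_left]
    rintro x ⟨hx, h2⟩ ⟨_, h3⟩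
    exact h3 h2
  · rintro a ⟨ha, h2⟩ b ⟨hb, h3⟩ hab
    apply h3
    refine h2.trans (SimpleGraph.Adj.reachable ?_)
    exact hab

theorem kch_b {V : Type} (G : SimpleGraph V) (A B T : Set V) (hA : A.Nonempty) (hB : B.Nonempty)
    (hT : T = A ∪ B) (hd : Disjoint A B) (hn : ∀ a ∈ A, ∀ b ∈ B, ¬ G.Adj a b) :
    ¬ (G.induce T).Connected := by
  subst hT
  intro h
  obtain ⟨a, ha⟩ := hA
  obtain ⟨b, hb⟩ := hB
  have h1 := h.preconnected ⟨a, Or.inl ha⟩ ⟨b, Or.inr hb⟩
  obtain ⟨w⟩ := h1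
  have h2 : ∀ (x y : (A ∪ B : Set V)), (G.induce (A ∪ B)).Walk x y → (x : V) ∈ A → (y : V) ∈ A := by
    intro x y w
    induction w with
    | nil => exact fun h => h
    | @cons u v' w' hxy p ih =>
      intro hx
      apply ih
      rcases v'.2 with h3 | h3
      · exact h3
      · exact absurd hxy (hn _ hx _ h3)
  have h3 := h2 _ _ w ha
  exact (Set.disjoint_left.1 hd) h3 hb

open Classical in
theorem t_KCH : S_KCH := by
  intro n l G hl hn
  constructor
  · intro h A B hA hB hAB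
    have hd : Disjoint A B := by
      rw [Set.disjoint_left]
      intro x hx hx2
      exact (hAB x hx x hx2).ne rfl
    have hno : ∀ a ∈ A, ∀ b ∈ B, ¬ G.Adj a b := fun a ha b hb =>
      ((SimpleGraph.compl_adj G a b).1 (hAB a ha b hb)).2
    have hT : {v : Fin n | v ∉ ((A ∪ B)ᶜ : Set (Fin n)).toFinset} = A ∪ B := by
      ext v
      rw [Set.mem_ofPred_eq, Set.mem_toFinset, Set.mem_compl_iff, not_not]
    have h1 : ¬ (G.induce {v | v ∉ ((A ∪ B)ᶜ : Set (Fin n)).toFinset}).Connected :=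
      kch_b G A B _ hA hB hT hd hno
    have h2 : kap G ≤ ((A ∪ B)ᶜ : Set (Fin n)).toFinset.card :=
      Nat.sInf_le ⟨_, rfl, Or.inl h1⟩
    have h3 : ((A ∪ B)ᶜ : Set (Fin n)).toFinset.card = ((A ∪ B)ᶜ : Set (Fin n)).ncard :=
      (Set.ncard_eq_toFinset_card' _).symm
    have h4 : (A ∪ B).ncard + ((A ∪ B)ᶜ : Set (Fin n)).ncard = Nat.card (Fin n) :=
      Set.ncard_add_ncard_compl _
    have h5 : (A ∪ B).ncard = A.ncard + B.ncard := Set.ncard_union_eq hd
    rw [Nat.card_eq_fintype_card, Fintype.card_fin] at h4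
    omega
  · intro h
    have h1 : kap G ∈ {m | ∃ S : Finset (Fin n), S.card = m ∧
        (¬ (G.induce {v | v ∉ S}).Connected ∨ Fintype.card (Fin n) ≤ S.card + 1)} := by
      apply Nat.sInf_mem
      exact ⟨_, Finset.univ, rfl, Or.inr (by rw [Finset.card_univ]; omega)⟩
    obtain ⟨S, hS, h2⟩ := h1
    rw [Fintype.card_fin] at h2
    have hSn : S.card ≤ n := by
      have := Finset.card_le_univ S
      rwa [Fintype.card_fin] at this
    rcases h2 with h2 | h2
    · by_cases hT : ({v | v ∉ S} : Set (Fin n)).Nonempty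
      · obtain ⟨A, B, hA, hB, hU, hd, hno⟩ := kch_a G _ hT h2
        have h3 := h A B hA hB (fun a ha b hb => by
          rw [SimpleGraph.compl_adj]
          refine ⟨?_, hno a ha b hb⟩
          rintro rfl
          exact (Set.disjoint_left.1 hd) ha hb)
        have h5 : (A ∪ B).ncard = A.ncard + B.ncard := Set.ncard_union_eq hd
        have h6 : (A ∪ B)ᶜ = (S : Set (Fin n)) := by
          rw [hU]
          ext v
          rw [Set.mem_compl_iff, Set.mem_ofPred_eq, not_not]
          rfl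
        have h4 : (A ∪ B).ncard + ((A ∪ B)ᶜ : Set (Fin n)).ncard = Nat.card (Fin n) :=
          Set.ncard_add_ncard_compl _
        rw [h6, Set.ncard_coe_finset, Nat.card_eq_fintype_card, Fintype.card_fin] at h4
        omega
      · have h3 : S = Finset.univ := by
          rw [Finset.eq_univ_iff_forall]
          intro v
          by_contra hv
          exact hT ⟨v, hv⟩
        have h4 : S.card = n := by rw [h3, Finset.card_univ, Fintype.card_fin]
        omega
    · omega

end H467Del
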