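import Pool.Agent.H467R2.Del.DefsV

set_option autoImplicit false

namespace H467Del

open H467Aug

theorem kfin_cl (n k : ℕ) (hk : k + 1 ≤ n) :
    cl n k + fl n (n - 1 - k) = n * (n - 1) / 2 := by
  obtain ⟨d, rfl⟩ : ∃ d, n = k + 1 + d := ⟨n - (k + 1), by omega⟩
  have e1 : k + 1 + d - 1 - k = d := by omega
  have e2 : k + 1 + d - 1 = k + d := by omega
  unfold cl fl
  rw [e1, e2]
  have h1 : (k + 1 + d) * k + (k + 1 + d) * d = (k + 1 + d) * (k + d) := by ring
  obtain ⟨m, hm⟩ : ∃ m, (k + 1 + d) * (k + d) = 2 * m := by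
    have : Even ((k + d) * (k + d + 1)) := Nat.even_mul_succ_self _
    obtain ⟨m, hm⟩ := this
    exact ⟨m, by rw [← two_mul] at hm; rw [← hm]; ring⟩
  rw [hm] at h1 ⊢
  omega

theorem kfin_mono {V : Type} {H H' : SimpleGraph V} {D : ℕ} (h : H ≤ H') (hK : KB H' D) :
    KB H D := fun A B hA hB hAB => hK A B hA hB fun a ha b hb => h (hAB a ha b hb)

theorem kfin_bot {V : Type} (D : ℕ) : KB (⊥ : SimpleGraph V) D := by
  intro A B hA hB hAB
  obtain ⟨a, ha⟩ := hA
  obtain ⟨b, hb⟩ := hB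
  exact absurd (hAB a ha b hb) (by simp)

theorem kfin_dg {V : Type} [Fintype V] {H : SimpleGraph V} {D : ℕ} (hK : KB H D) (v : V) :
    dg H v ≤ D := by
  by_cases hne : {w | H.Adj v w}.Nonempty
  · have h := hK {v} {w | H.Adj v w} (Set.singleton_nonempty v) hne (by
      intro a ha b hb
      rw [Set.mem_singleton_iff] at ha
      rw [ha]
      exact hb)
    rw [Set.ncard_singleton] at h
    unfold dg
    omega
  · rw [Set.not_nonempty_iff_eq_empty] at hne
    unfold dg
    rw [hne, Set.ncard_empty]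
    exact Nat.zero_le _

theorem t_KFIN (h1 : S_KUP) (h2 : S_KCH) (hB : S_BAS) : S_KFIN := by
  classical
  intro n k l hl hlk hkn h4
  have hcard : Fintype.card (Fin n) = n := Fintype.card_fin n
  have hk := kfin_cl n k (by omega)
  have hl2 := kfin_cl n l (by omega)
  have hDb : n - 1 - k ≤ n - 1 - l := by omega
  have hmono : cl n l ≤ cl n k := by
    unfold cl
    have : n * l ≤ n * k := Nat.mul_le_mul_left n hlk.le
    omega
  have hb1 : n - 1 - l + 1 = n - l := by omega
  have hb4 : 4 * (n - 1 - l + 1) ^ 3 ≤ Fintype.card (Fin n) := by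
    rw [hb1, hcard]
    exact h4
  have hD4 : 4 * (n - 1 - k + 1) ^ 3 ≤ Fintype.card (Fin n) := by
    refine le_trans ?_ hb4
    exact Nat.mul_le_mul_left 4 (Nat.pow_le_pow_left (by omega) 3)
  have hec : ∀ G : SimpleGraph (Fin n), ec Gᶜ + ec G = n * (n - 1) / 2 := by
    intro G
    have h := (hB (Fin n) G).2.2.2.2.1
    rwa [hcard] at h
  constructor
  · -- deletion is possible
    intro G hG
    have hKB := (h2 n k G (by omega) (by omega)).1 hG
    obtain ⟨H', hH1, hH2, hH3⟩ := h1 (Fin n) Gᶜ (n - 1 - k) (n - 1 - l) hKB hDb hb4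
    rw [hcard] at hH3
    have hle : H'ᶜ ≤ G := by
      have h := compl_le_compl hH1
      rwa [compl_compl] at h
    have hd := (hB (Fin n) H'ᶜ).2.2.2.2.2.1 G hle
    have e1 := hec G
    have e2 := hec H'
    have hcount : cl n k - cl n l ≤ (G.edgeSet \ (H'ᶜ).edgeSet).ncard := by
      rw [hd.2]
      omega
    obtain ⟨T, hT1, hT2⟩ := Set.exists_subset_card_eq hcount
    have hTf : T.Finite := Set.toFinite T
    refine ⟨hTf.toFinset, ?_, ?_, ?_⟩
    · rw [hTf.coe_toFinset]
      exact fun x hx => (hT1 hx).1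
    · rw [← Set.ncard_eq_toFinset_card T hTf]
      exact hT2
    · rw [hTf.coe_toFinset]
      refine (h2 n l (G.deleteEdges T) (by omega) (by omega)).2 (kfin_mono ?_ hH2)
      intro u v huv
      by_contra hnot
      rw [SimpleGraph.compl_adj] at huv
      apply huv.2
      rw [SimpleGraph.deleteEdges_adj]
      have hc : (H'ᶜ).Adj u v := by
        rw [SimpleGraph.compl_adj]
        exact ⟨huv.1, hnot⟩
      refine ⟨hle hc, fun hT => ?_⟩
      exact (hT1 hT).2 ((SimpleGraph.mem_edgeSet _).2 hc)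
  · -- upper bound
    intro e he
    obtain ⟨H0, _, hH2, hH3⟩ := h1 (Fin n) ⊥ 0 (n - 1 - k) (kfin_bot 0) (Nat.zero_le _) hD4
    rw [hcard] at hH3
    have hfl0 : fl n 0 = 0 := by unfold fl; simp
    have hG0 : k ≤ kap H0ᶜ := by
      refine (h2 n k H0ᶜ (by omega) (by omega)).2 ?_
      rw [compl_compl]
      exact hH2
    obtain ⟨F, hF1, hF2, hF3⟩ := he H0ᶜ hG0
    have hKB := (h2 n l _ (by omega) (by omega)).1 hF3
    obtain ⟨G', hG'⟩ : ∃ G' : SimpleGraph (Fin n),
        G' = H0ᶜ.deleteEdges (F : Set (Sym2 (Fin n))) := ⟨_, rfl⟩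
    rw [← hG'] at hKB
    have hle : G' ≤ H0ᶜ := by
      rw [hG']
      exact SimpleGraph.deleteEdges_le _
    have hd := (hB (Fin n) G').2.2.2.2.2.1 H0ᶜ hle
    have hset : (H0ᶜ).edgeSet \ G'.edgeSet = (F : Set (Sym2 (Fin n))) := by
      rw [hG', SimpleGraph.edgeSet_deleteEdges, Set.sdiff_sdiff_right_self]
      exact Set.inter_eq_right.2 hF1
    rw [hset, Set.ncard_coe_finset, hF2] at hd
    have hdeg : ∀ v, l ≤ dg G' v := by
      intro v
      have h3 := (hB (Fin n) G').2.2.1 v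
      have h4 := kfin_dg hKB v
      rw [hcard] at h3
      omega
    have hsum := (hB (Fin n) G').2.2.2.1
    have hsum2 : n * l ≤ ∑ v, dg G' v := by
      calc n * l = ∑ _v : Fin n, l := by rw [Finset.sum_const, Finset.card_univ, hcard, smul_eq_mul]
        _ ≤ ∑ v, dg G' v := Finset.sum_le_sum fun v _ => hdeg v
    have hlow : cl n l ≤ ec G' := by
      unfold cl
      omega
    have e1 := hec H0
    omega

end H467Del
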