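import Pool.Agent.H467R2.Del.DefsV

set_option autoImplicit false

namespace H467Del

open H467Aug

open Classical in
theorem kst_nb {V : Type} [Fintype V] (H : SimpleGraph V) (D : ℕ) (hd : ∀ v, dg H v ≤ D)
    (S : Finset V) : (S.biUnion fun a => Finset.univ.filter fun b => H.Adj a b).card ≤ S.card * D := by
  refine Finset.card_biUnion_le_card_mul _ _ _ fun a _ => ?_
  have h := hd a
  unfold dg at h
  rw [Set.ncard_eq_toFinset_card'] at h
  have e : (Finset.univ.filter fun b => H.Adj a b) = ({w | H.Adj a w} : Set V).toFinset := by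
    ext b; simp
  rw [e]; exact h

open Classical in
/-- a vertex that is not `v`, not adjacent to `v`, not the end of a walk of length three -/
theorem kst_w {V : Type} [Fintype V] (H : SimpleGraph V) (D : ℕ) (hd : ∀ v, dg H v ≤ D)
    (hn : 1 + D + D ^ 3 < Fintype.card V) (v : V) :
    ∃ w, w ≠ v ∧ ¬ H.Adj v w ∧ ∀ a b, H.Adj v a → H.Adj a b → ¬ H.Adj b w := by
  by_contra hcon
  push Not at hcon
  set N1 : Finset V := ({v} : Finset V).biUnion fun a => Finset.univ.filter fun b => H.Adj a b
    with hN1
  set N2 : Finset V := N1.biUnion fun a => Finset.univ.filter fun b => H.Adj a b with hN2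
  set N3 : Finset V := N2.biUnion fun a => Finset.univ.filter fun b => H.Adj a b with hN3
  have c1 : N1.card ≤ 1 * D := by
    have := kst_nb H D hd {v}
    rwa [Finset.card_singleton] at this
  have c2 : N2.card ≤ N1.card * D := kst_nb H D hd N1
  have c3 : N3.card ≤ N2.card * D := kst_nb H D hd N2
  have hu : (Finset.univ : Finset V) ⊆ {v} ∪ (N1 ∪ N3) := by
    intro w _
    rw [Finset.mem_union, Finset.mem_union, Finset.mem_singleton]
    by_cases h1 : w = v
    · exact Or.inl h1
    · right
      by_cases h2 : H.Adj v w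
      · left
        rw [hN1, Finset.mem_biUnion]
        exact ⟨v, Finset.mem_singleton_self v, by simpa using h2⟩
      · right
        obtain ⟨a, b, ha, hb, hw⟩ := hcon w h1 h2
        rw [hN3, Finset.mem_biUnion]
        refine ⟨b, ?_, by simpa using hw⟩
        rw [hN2, Finset.mem_biUnion]
        refine ⟨a, ?_, by simpa using hb⟩
        rw [hN1, Finset.mem_biUnion]
        exact ⟨v, Finset.mem_singleton_self v, by simpa using ha⟩
  have h1 := Finset.card_le_card hu
  rw [Finset.card_univ] at h1
  have h2 : ({v} ∪ (N1 ∪ N3) : Finset V).card ≤ 1 + (N1.card + N3.card) := by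
    refine (Finset.card_union_le _ _).trans ?_
    rw [Finset.card_singleton]
    have := Finset.card_union_le N1 N3
    omega
  have h3 : N3.card ≤ D ^ 3 := by
    calc N3.card ≤ N2.card * D := c3
      _ ≤ (N1.card * D) * D := Nat.mul_le_mul_right _ c2
      _ ≤ ((1 * D) * D) * D := Nat.mul_le_mul_right _ (Nat.mul_le_mul_right _ c1)
      _ = D ^ 3 := by ring
  omega

/-- disjoint unions -/
theorem kst_ec (hB : S_BAS) {V : Type} [Fintype V] (H M : SimpleGraph V) (h : Dis M H) :
    ec (H ⊔ M) = ec H + ec M := by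
  have h1 := (hB V (H ⊔ M)).2.2.2.2.2.2.2.1 M le_sup_right
  have e : (H ⊔ M) \ M = H := by
    ext u v
    rw [SimpleGraph.sdiff_adj, SimpleGraph.sup_adj]
    constructor
    · rintro ⟨h2 | h2, h3⟩
      · exact h2
      · exact absurd h2 h3
    · intro h2
      exact ⟨Or.inl h2, fun h3 => h u v h3 h2⟩
  rw [e] at h1
  exact h1.symm

theorem kst_mat_dg {V : Type} [Fintype V] (M : SimpleGraph V) (hM : Mat M) (v : V) :
    dg M v ≤ 1 := by
  unfold dg
  rw [Set.ncard_le_one (Set.toFinite _)]
  intro a ha b hb
  exact hM v a b ha hb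

theorem kst_mat_dg1 {V : Type} [Fintype V] (M : SimpleGraph V) (hM : Mat M) (v : V)
    (h : ∃ w, M.Adj v w) : dg M v = 1 := by
  have h1 := kst_mat_dg M hM v
  obtain ⟨w, hw⟩ := h
  have h2 : 0 < dg M v := by
    unfold dg
    rw [Set.ncard_pos (Set.toFinite _)]
    exact ⟨w, hw⟩
  omega

theorem kst_dg_sup {V : Type} [Fintype V] (H M : SimpleGraph V) (v : V) :
    dg (H ⊔ M) v ≤ dg H v + dg M v := by
  unfold dg
  have e : {w | (H ⊔ M).Adj v w} = {w | H.Adj v w} ∪ {w | M.Adj v w} := by
    ext w; simp
  rw [e]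
  exact Set.ncard_union_le _ _


theorem kst_edge_ec {V : Type} [Fintype V] (v w : V) (h : v ≠ w) :
    ec (SimpleGraph.edge v w) = 1 := by
  unfold ec
  rw [SimpleGraph.edgeSet_edge_of_ne h, Set.ncard_singleton]

theorem kst_edge_mat {V : Type} (v w : V) : Mat (SimpleGraph.edge v w) := by
  intro a b c h1 h2
  rw [SimpleGraph.edge_adj] at h1 h2
  obtain ⟨h1, h1n⟩ := h1
  obtain ⟨h2, h2n⟩ := h2
  rcases h1 with ⟨h3, h4⟩ | ⟨h3, h4⟩ <;> rcases h2 with ⟨h5, h6⟩ | ⟨h5, h6⟩
  · rw [h4, h6]
  · exact absurd (h3.trans (h3.symm.trans h5) |>.trans h4.symm) h1n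
  · exact absurd (h5.trans h4.symm) h1n
  · rw [h4, h6]

theorem kst_deg {V : Type} [Fintype V] (H : SimpleGraph V) (D : ℕ) (h : KB H D) (v : V) :
    dg H v ≤ D := by
  by_cases h0 : ({w | H.Adj v w} : Set V).Nonempty
  · have h1 := h {v} {w | H.Adj v w} (Set.singleton_nonempty v) h0 (by
      intro a ha b hb
      rw [Set.mem_singleton_iff] at ha
      subst ha
      exact hb)
    rw [Set.ncard_singleton] at h1
    unfold dg
    omega
  · rw [Set.not_nonempty_iff_eq_empty] at h0
    unfold dg
    rw [h0, Set.ncard_empty]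
    omega

theorem t_KST (h1 : S_GM) (h2 : S_KBN) (hB : S_BAS) : S_KST := by
  intro V _ H D hK hn
  have hd := kst_deg H D hK
  have hsum : ∀ G : SimpleGraph V, ∑ v, dg G v = 2 * ec G := fun G => (hB V G).2.2.2.1
  have e3 : 4 * (D + 2) ^ 3 = 4 * D ^ 3 + 24 * D ^ 2 + 48 * D + 32 := by ring
  rw [e3] at hn
  rcases Nat.even_or_odd (Fintype.card V) with hev | hodd
  · -- `n` even
    obtain ⟨M, m1, m2, m3, m4, m5⟩ := h1 V H D Set.univ hd (by
      rw [Set.ncard_univ, Nat.card_eq_fintype_card]; exact hev) (by
      rw [Set.ncard_univ, Nat.card_eq_fintype_card]; nlinarith [Nat.zero_le (D ^ 3), Nat.zero_le (D ^ 2)])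
    have hdM : ∀ v, dg M v = 1 := fun v => kst_mat_dg1 M m1 v (m3 v (Set.mem_univ v))
    refine ⟨H ⊔ M, le_sup_left, h2 V H M D hK m5 (fun v => ?_), ?_⟩
    · have := hd v
      rw [hdM v]
      omega
    · rw [kst_ec hB H M m4]
      have h3 := hsum M
      rw [Finset.sum_congr rfl (fun v _ => hdM v), Finset.sum_const, Finset.card_univ,
        smul_eq_mul, mul_one] at h3
      obtain ⟨m, hm⟩ := hev
      unfold fl
      have e1 : Fintype.card V * (D + 1) / 2 = m * D + m := by
        rw [hm, show (m + m) * (D + 1) = (m * D + m) * 2 by ring, Nat.mul_div_cancel _ (by norm_num)]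
      have e2 : Fintype.card V * D / 2 = m * D := by
        rw [hm, show (m + m) * D = (m * D) * 2 by ring, Nat.mul_div_cancel _ (by norm_num)]
      rw [e1, e2]
      omega
  · obtain ⟨m, hm⟩ := hodd
    have hWn : ∀ w : V, ({w}ᶜ : Set V).ncard = 2 * m := by
      intro w
      rw [Set.ncard_compl, Set.ncard_singleton, Nat.card_eq_fintype_card, hm]
      omega
    have hcov : ∀ (M : SimpleGraph V) (w : V), Mat M → (∀ u v, M.Adj u v → u ∈ ({w}ᶜ : Set V)) →
        (∀ u ∈ ({w}ᶜ : Set V), ∃ v, M.Adj u v) → ec M = m ∧ dg M w = 0 := by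
      intro M w m1 m2 m3
      have h0 : dg M w = 0 := by
        unfold dg
        have : {x | M.Adj w x} = (∅ : Set V) := by
          ext x
          simp only [Set.mem_ofPred_eq, Set.mem_empty_iff_false, iff_false]
          intro hx
          exact m2 w x hx rfl
        rw [this, Set.ncard_empty]
      refine ⟨?_, h0⟩
      classical
      have h3 := hsum M
      rw [← Finset.add_sum_erase Finset.univ _ (Finset.mem_univ w), h0,
        Finset.sum_congr rfl (fun v hv => kst_mat_dg1 M m1 v (m3 v (Finset.ne_of_mem_erase hv))),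
        Finset.sum_const, Finset.card_erase_of_mem (Finset.mem_univ w), Finset.card_univ,
        smul_eq_mul, hm] at h3
      omega
    rcases Nat.even_or_odd D with hDe | hDo
    · -- `n` odd, `D` even
      have : Nonempty V := Fintype.card_pos_iff.1 (by omega)
      obtain ⟨w⟩ := this
      obtain ⟨M, m1, m2, m3, m4, m5⟩ := h1 V H D {w}ᶜ hd (by rw [hWn]; exact even_two_mul m) (by
        rw [hWn]; nlinarith [Nat.zero_le (D ^ 3), Nat.zero_le (D ^ 2)])
      obtain ⟨c1, c2⟩ := hcov M w m1 m2 m3
      refine ⟨H ⊔ M, le_sup_left, h2 V H M D hK m5 (fun v => ?_), ?_⟩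
      · have := hd v
        have := kst_mat_dg M m1 v
        omega
      · rw [kst_ec hB H M m4, c1]
        obtain ⟨d, hd2⟩ := hDe
        unfold fl
        have e1 : Fintype.card V * (D + 1) / 2 = 2 * (m * d) + m + d := by
          rw [hm, hd2, show (2 * m + 1) * (d + d + 1) = 1 + (2 * (m * d) + m + d) * 2 by ring,
            Nat.add_mul_div_right _ _ (by norm_num)]
          omega
        have e2 : Fintype.card V * D / 2 = 2 * (m * d) + d := by
          rw [hm, hd2, show (2 * m + 1) * (d + d) = (2 * (m * d) + d) * 2 by ring,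
            Nat.mul_div_cancel _ (by norm_num)]
        rw [e1, e2]
        omega
    · -- `n` odd, `D` odd
      obtain ⟨d, hd2⟩ := hDo
      obtain ⟨v, hv⟩ : ∃ v, dg H v < D := by
        by_contra hcon
        push Not at hcon
        have h3 := hsum H
        rw [Finset.sum_congr rfl (fun v _ => le_antisymm (hd v) (hcon v)), Finset.sum_const,
          Finset.card_univ, smul_eq_mul, hm, hd2,
          show (2 * m + 1) * (2 * d + 1) = 2 * (2 * (m * d) + m + d) + 1 by ring] at h3
        omega
      obtain ⟨w, w1, w2, w3⟩ := kst_w H D hd (by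
        nlinarith [Nat.zero_le (D ^ 3), Nat.zero_le (D ^ 2)]) v
      set E : SimpleGraph V := SimpleGraph.edge v w with hE
      have hEa : ∀ a b, E.Adj a b → (a = v ∧ b = w) ∨ (a = w ∧ b = v) := by
        intro a b hab
        rw [hE, SimpleGraph.edge_adj] at hab
        exact hab.1
      have hEm : Mat E := kst_edge_mat v w
      have hEd : ∀ x, dg E x ≤ 1 := kst_mat_dg E hEm
      have hEH : Dis E H := by
        intro a b hab hH
        rcases hEa a b hab with ⟨rfl, rfl⟩ | ⟨rfl, rfl⟩
        · exact w2 hH
        · exact w2 hH.symm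
      have hd1 : ∀ x, dg (H ⊔ E) x ≤ D + 1 := fun x =>
        (kst_dg_sup H E x).trans (Nat.add_le_add (hd x) (hEd x))
      obtain ⟨M, m1, m2, m3, m4, m5⟩ := h1 V (H ⊔ E) (D + 1) {w}ᶜ hd1
        (by rw [hWn]; exact even_two_mul m) (by
        rw [hWn, show 3 * ((D + 1) ^ 3 + (D + 1) ^ 2 + (D + 1) + 1) + (D + 1) =
          3 * D ^ 3 + 12 * D ^ 2 + 19 * D + 13 by ring]
        nlinarith [Nat.zero_le (D ^ 3), Nat.zero_le (D ^ 2)])
      obtain ⟨c1, c2⟩ := hcov M w m1 m2 m3
      have hMH : Dis M H := fun a b hab hH => m4 a b hab (Or.inl hH)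
      have hME : Dis M E := fun a b hab hH => m4 a b hab (Or.inr hH)
      have hNH : Dis (M ⊔ E) H := by
        intro a b hab hH
        rcases hab with hab | hab
        · exact hMH a b hab hH
        · exact hEH a b hab hH
      have hEM : Dis E M := fun a b hab hH => hME a b hH hab
      have heq : H ⊔ (M ⊔ E) = (H ⊔ E) ⊔ M := by
        rw [sup_comm M E, sup_assoc]
      have hC : C4 (M ⊔ E) H := by
        have key : ∀ c e, (v ≠ c) → (w ≠ e) → ((H ⊔ E) ⊔ M).Adj w c → ((H ⊔ E) ⊔ M).Adj c e →
            ((H ⊔ E) ⊔ M).Adj e v → False := by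
          intro c e n1 n2 a1 a2 a3
          have aE : ((H ⊔ E) ⊔ M).Adj v w := by
            left; right
            rw [hE, SimpleGraph.edge_adj]
            exact ⟨Or.inl ⟨rfl, rfl⟩, w1.symm⟩
          -- the cycle v w c e
          have b1 : ¬ M.Adj w c := fun hM => m5 w c e v hM a2 a3 aE n2 n1.symm
          have b2 : ¬ M.Adj c e := fun hM => m5 c e v w hM a3 aE a1 n1.symm n2.symm
          have b3 : ¬ M.Adj e v := fun hM => m5 e v w c hM aE a1 a2 n2.symm n1
          have g1 : H.Adj w c := by
            rcases a1 with (a1 | a1) | a1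
            · exact a1
            · rcases hEa w c a1 with ⟨h5, h6⟩ | ⟨h5, h6⟩
              · exact absurd h5 w1
              · exact absurd h6.symm n1
            · exact absurd a1 b1
          have g3 : H.Adj e v := by
            rcases a3 with (a3 | a3) | a3
            · exact a3
            · rcases hEa e v a3 with ⟨h5, h6⟩ | ⟨h5, h6⟩
              · exact absurd h6.symm w1
              · exact absurd h5.symm n2
            · exact absurd a3 b3
          have g2 : H.Adj c e := by
            rcases a2 with (a2 | a2) | a2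
            · exact a2
            · rcases hEa c e a2 with ⟨h5, h6⟩ | ⟨h5, h6⟩
              · exact absurd h5.symm n1
              · exact absurd h5.symm g1.ne
            · exact absurd a2 b2
          exact w3 e c g3.symm g2.symm g1.symm
        intro a b c e h3 h4 h5 h6 n1 n2
        rw [heq] at h4 h5 h6
        rcases h3 with h3 | h3
        · exact m5 a b c e h3 h4 h5 h6 n1 n2
        · rcases hEa a b h3 with ⟨rfl, rfl⟩ | ⟨rfl, rfl⟩
          · exact key c e n1 n2 h4 h5 h6
          · exact key e c n2 n1 h6.symm h5.symm h4.symm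
      refine ⟨H ⊔ (M ⊔ E), le_sup_left, h2 V H (M ⊔ E) D hK hC (fun x => ?_), ?_⟩
      · have f1 := kst_dg_sup M E x
        have f2 := kst_mat_dg M m1 x
        have f3 := hEd x
        have f4 := hd x
        by_cases x1 : x = v
        · rw [x1] at f1 f2 f3 ⊢
          omega
        · by_cases x2 : x = w
          · rw [x2] at f1 f2 f3 f4 ⊢
            omega
          · have f5 : dg E x = 0 := by
              unfold dg
              have : {y | E.Adj x y} = (∅ : Set V) := by
                ext y
                simp only [Set.mem_ofPred_eq, Set.mem_empty_iff_false, iff_false]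
                intro hy
                rcases hEa x y hy with ⟨h5, _⟩ | ⟨h5, _⟩
                · exact x1 h5
                · exact x2 h5
              rw [this, Set.ncard_empty]
            omega
      · rw [kst_ec hB H (M ⊔ E) hNH, kst_ec hB M E hEM, c1, hE, kst_edge_ec v w w1.symm]
        unfold fl
        have e1 : Fintype.card V * (D + 1) / 2 = 2 * (m * d) + 2 * m + d + 1 := by
          rw [hm, hd2, show (2 * m + 1) * (2 * d + 1 + 1) = (2 * (m * d) + 2 * m + d + 1) * 2 by ring,
            Nat.mul_div_cancel _ (by norm_num)]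
        have e2 : Fintype.card V * D / 2 = 2 * (m * d) + m + d := by
          rw [hm, hd2, show (2 * m + 1) * (2 * d + 1) = 1 + (2 * (m * d) + m + d) * 2 by ring,
            Nat.add_mul_div_right _ _ (by norm_num)]
          omega
        rw [e1, e2]
        omega

end H467Del
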