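import Pool.Agent.H467R2.Del.DefsV

/-!
Task KUP: all steps.
-/

set_option autoImplicit false

namespace H467Del

open H467Aug

theorem t_KUP (h : S_KST) : S_KUP := by
  have key : ∀ (m : ℕ) (V : Type) [Fintype V] (H : SimpleGraph V) (D : ℕ), KB H D →
      4 * (D + m + 1) ^ 3 ≤ Fintype.card V → ∃ H' : SimpleGraph V, H ≤ H' ∧ KB H' (D + m) ∧
        ec H + fl (Fintype.card V) (D + m) ≤ ec H' + fl (Fintype.card V) D := by
    intro m
    induction m with
    | zero =>
      intro V _ H D hH _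
      exact ⟨H, le_refl H, hH, le_refl _⟩
    | succ m ih =>
      intro V _ H D hH hn
      have hp : 4 * (D + 2) ^ 3 ≤ 4 * (D + (m + 1) + 1) ^ 3 :=
        Nat.mul_le_mul_left 4 (Nat.pow_le_pow_left (by omega) 3)
      obtain ⟨H1, h1, h2, h3⟩ := h V H D hH (hp.trans hn)
      have e : D + 1 + m = D + (m + 1) := by omega
      obtain ⟨H2, h4, h5, h6⟩ := ih V H1 (D + 1) h2 (by rw [e]; exact hn)
      rw [e] at h5 h6
      exact ⟨H2, h1.trans h4, h5, by omega⟩
  intro V _ H D b hH hDb hn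
  obtain ⟨m, rfl⟩ : ∃ m, b = D + m := ⟨b - D, by omega⟩
  exact key m V H D hH hn

end H467Del
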