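import Pool.Agent.H467R2.Del.Defs

/-!
# Task NPM: matchings which miss exactly a given vertex
-/

set_option autoImplicit false

namespace H467Del

open H467Aug

/-- the extension of a graph on the complement of a vertex -/
def npm_ext {V : Type} (w : V) (M' : SimpleGraph {v : V // v ≠ w}) : SimpleGraph V where
  Adj a b := ∃ (ha : a ≠ w) (hb : b ≠ w), M'.Adj ⟨a, ha⟩ ⟨b, hb⟩
  symm := ⟨fun _ _ ⟨ha, hb, h⟩ => ⟨hb, ha, h.symm⟩⟩
  loopless := ⟨fun _ ⟨_, _, h⟩ => h.ne rfl⟩

theorem npm_dg {V : Type} [Fintype V] (G : SimpleGraph V) (w : V) (v : {v : V // v ≠ w}) :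
    dg G v.1 ≤ dg (G.comap (Subtype.val : {v : V // v ≠ w} → V)) v + 1 := by
  classical
  unfold dg
  have h1 : {u : V | G.Adj v.1 u} ⊆
      insert w ((Subtype.val : {v : V // v ≠ w} → V) '' {u | (G.comap
        (Subtype.val : {v : V // v ≠ w} → V)).Adj v u}) := by
    intro u hu
    by_cases huw : u = w
    · exact Or.inl huw
    · exact Or.inr ⟨⟨u, huw⟩, hu, rfl⟩
  refine (Set.ncard_le_ncard h1 (Set.toFinite _)).trans ?_
  refine (Set.ncard_insert_le _ _).trans ?_
  rw [Set.ncard_image_of_injective _ Subtype.val_injective]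

theorem t_NPM (h : S_PMD) : S_NPM := by
  classical
  intro V _ G w hodd hdeg
  have hcard : Fintype.card {v : V // v ≠ w} + 1 = Fintype.card V := by
    have h1 : Fintype.card {v : V // v ≠ w} = Fintype.card V - 1 := by
      have h2 := Fintype.card_subtype_compl (fun v : V => v = w)
      rw [Fintype.card_subtype_eq] at h2
      exact h2
    have h2 : 0 < Fintype.card V := Fintype.card_pos_iff.2 ⟨w⟩
    omega
  obtain ⟨M', hM1, hM2, hM3⟩ := h {v : V // v ≠ w}
    (G.comap (Subtype.val : {v : V // v ≠ w} → V)) (by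
      rcases hodd with ⟨r, hr⟩
      exact ⟨r, by omega⟩) (by
      intro v
      have h1 := npm_dg G w v
      have h2 := hdeg v.1
      omega)
  refine ⟨npm_ext w M', ?_, ?_, ?_, ?_⟩
  · rintro u v v' ⟨hu, hv, h1⟩ ⟨hu', hv', h2⟩
    exact congrArg Subtype.val (hM1 _ _ _ h1 h2)
  · rintro u v ⟨hu, hv, h1⟩
    exact hM2 h1
  · intro v hv
    obtain ⟨u, hu⟩ := hM3 ⟨v, hv⟩
    exact ⟨u.1, hv, u.2, hu⟩
  · rintro u ⟨hw, _, _⟩
    exact hw rfl

end H467Del
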