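import Pool.Agent.H467R2.Del.Defs

set_option autoImplicit false

namespace H467Del

open H467Aug

theorem t_NPMb (h : S_PMD) : S_NPM := by
  classical
  intro V _ G w hodd hdeg
  let U : Type := {v : V // v ≠ w}
  let G' : SimpleGraph U := G.comap (fun u => u.1)
  have hcard : Fintype.card U + 1 = Fintype.card V := by
    have h1 : Fintype.card U = Fintype.card V - 1 := Set.card_ne_eq w
    have h2 : 0 < Fintype.card V := Fintype.card_pos_iff.2 ⟨w⟩
    omega
  have hd : ∀ u : U, dg G u.1 ≤ dg G' u + 1 := by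
    intro u
    unfold dg
    have h1 : {x | G.Adj u.1 x} ⊆ (fun x : U => x.1) '' {x | G'.Adj u x} ∪ {w} := by
      intro x hx
      by_cases hxw : x = w
      · exact Or.inr hxw
      · exact Or.inl ⟨⟨x, hxw⟩, hx, rfl⟩
    calc {x | G.Adj u.1 x}.ncard ≤ ((fun x : U => x.1) '' {x | G'.Adj u x} ∪ {w}).ncard :=
          Set.ncard_le_ncard h1 (Set.toFinite _)
      _ ≤ ((fun x : U => x.1) '' {x | G'.Adj u x}).ncard + ({w} : Set V).ncard :=
          Set.ncard_union_le _ _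
      _ = {x | G'.Adj u x}.ncard + 1 := by
          rw [Set.ncard_image_of_injective _ Subtype.val_injective, Set.ncard_singleton]
  obtain ⟨M, hM, hMG, hcov⟩ := h U G' (by
    rcases Nat.even_or_odd (Fintype.card U) with h1 | h1
    · exact h1
    · exfalso
      obtain ⟨a, ha⟩ := h1
      obtain ⟨b, hb⟩ := hodd
      omega) (by
    intro u
    have h1 := hd u
    have h2 := hdeg u.1
    omega)
  refine ⟨{ Adj := fun a b => ∃ (ha : a ≠ w) (hb : b ≠ w), M.Adj ⟨a, ha⟩ ⟨b, hb⟩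
            symm := ⟨fun a b ⟨ha, hb, hab⟩ => ⟨hb, ha, hab.symm⟩⟩
            loopless := ⟨fun a ⟨ha, hb, hab⟩ => hab.ne rfl⟩ }, ?_, ?_, ?_, ?_⟩
  · rintro a b c ⟨ha, hb, hab⟩ ⟨_, hc, hac⟩
    have := hM _ _ _ hab hac
    exact congrArg Subtype.val this
  · rintro a b ⟨ha, hb, hab⟩
    exact hMG hab
  · intro v hv
    obtain ⟨u, hu⟩ := hcov ⟨v, hv⟩
    exact ⟨u.1, hv, u.2, hu⟩
  · rintro u ⟨ha, _, _⟩
    exact ha rfl

end H467Del
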