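import Pool.Agent.H467R2.Del.Defs

set_option autoImplicit false

namespace H467Del

open H467Aug

/-- a matching with the maximal number of covered vertices -/
def PmdOpt {V : Type} (H : SimpleGraph V) (M : SimpleGraph V) : Prop :=
  Mat M ∧ M ≤ H ∧ ∀ M' : SimpleGraph V, Mat M' → M' ≤ H →
    {v | ∃ w, M'.Adj v w}.ncard ≤ {v | ∃ w, M.Adj v w}.ncard

theorem pmd_better {V : Type} [Fintype V] (H : SimpleGraph V) (M M' : SimpleGraph V)
    (hO : PmdOpt H M) (h1 : Mat M') (h2 : M' ≤ H) (h3 : ∀ z w, M.Adj z w → ∃ w', M'.Adj z w')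
    (u : V) (hn : ∀ w, ¬ M.Adj u w) (x : V) (hx : M'.Adj u x) : False := by
  have h := hO.2.2 M' h1 h2
  have hlt : {v | ∃ w, M.Adj v w}.ncard < {v | ∃ w, M'.Adj v w}.ncard := by
    apply Set.ncard_lt_ncard _ (Set.toFinite _)
    refine ⟨?_, ?_⟩
    · rintro z ⟨w, hw⟩
      exact h3 z w hw
    · intro hs
      obtain ⟨w, hw⟩ := hs (⟨x, hx⟩ : u ∈ {v | ∃ w, M'.Adj v w})
      exact hn w hw
  omega

theorem pmd_case1 {V : Type} [Fintype V] (H : SimpleGraph V) (M : SimpleGraph V)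
    (hO : PmdOpt H M) (u x : V) (hn : ∀ w, ¬ M.Adj u w) (hux : H.Adj u x) :
    ∃ y, M.Adj x y := by
  by_contra hno
  push Not at hno
  have hne : u ≠ x := hux.ne
  let M' : SimpleGraph V :=
    { Adj := fun z w => M.Adj z w ∨ (z = u ∧ w = x) ∨ (z = x ∧ w = u)
      symm := ⟨by
        rintro z w (h | ⟨h, h'⟩ | ⟨h, h'⟩)
        · exact Or.inl h.symm
        · exact Or.inr (Or.inr ⟨h', h⟩)
        · exact Or.inr (Or.inl ⟨h', h⟩)⟩
      loopless := ⟨by
        rintro z (h | ⟨h, h'⟩ | ⟨h, h'⟩)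
        · exact h.ne rfl
        · exact hne (h.symm.trans h')
        · exact hne (h'.symm.trans h)⟩ }
  refine pmd_better H M M' hO ?_ ?_ ?_ u hn x (Or.inr (Or.inl ⟨rfl, rfl⟩))
  · rintro a b c (h | ⟨h, h'⟩ | ⟨h, h'⟩) (g | ⟨g, g'⟩ | ⟨g, g'⟩)
    · exact hO.1 a b c h g
    · subst g; exact absurd h (hn b)
    · subst g; exact absurd h (hno b)
    · subst h; exact absurd g (hn c)
    · rw [h', g']
    · exact absurd (h.symm.trans g) hne
    · subst h; exact absurd g (hno c)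
    · exact absurd (g.symm.trans h) hne
    · rw [h', g']
  · rintro a b (h | ⟨h, h'⟩ | ⟨h, h'⟩)
    · exact hO.2.1 h
    · subst h; subst h'; exact hux
    · subst h; subst h'; exact hux.symm
  · intro z w h
    exact ⟨w, Or.inl h⟩

theorem pmd_case2 {V : Type} [Fintype V] (H : SimpleGraph V) (M : SimpleGraph V)
    (hO : PmdOpt H M) (u v x y : V) (huv : u ≠ v)
    (hn : ∀ w, ¬ M.Adj u w) (hm : ∀ w, ¬ M.Adj v w) (hux : H.Adj u x) (hxy : M.Adj x y)
    (hvy : H.Adj v y) : False := by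
  have e1 : u ≠ x := hux.ne
  have e2 : v ≠ y := hvy.ne
  have e3 : x ≠ y := hxy.ne
  have e4 : u ≠ y := by rintro rfl; exact hn _ hxy.symm
  have e5 : v ≠ x := by rintro rfl; exact hm _ hxy
  let M' : SimpleGraph V :=
    { Adj := fun z w => (M.Adj z w ∧ z ≠ x ∧ z ≠ y ∧ w ≠ x ∧ w ≠ y) ∨ (z = u ∧ w = x) ∨
        (z = x ∧ w = u) ∨ (z = v ∧ w = y) ∨ (z = y ∧ w = v)
      symm := ⟨by
        rintro z w (⟨h, h1, h2, h3, h4⟩ | ⟨h, h'⟩ | ⟨h, h'⟩ | ⟨h, h'⟩ | ⟨h, h'⟩)
        · exact Or.inl ⟨h.symm, h3, h4, h1, h2⟩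
        · exact Or.inr (Or.inr (Or.inl ⟨h', h⟩))
        · exact Or.inr (Or.inl ⟨h', h⟩)
        · exact Or.inr (Or.inr (Or.inr (Or.inr ⟨h', h⟩)))
        · exact Or.inr (Or.inr (Or.inr (Or.inl ⟨h', h⟩)))⟩
      loopless := ⟨by
        rintro z (⟨h, -⟩ | ⟨h, h'⟩ | ⟨h, h'⟩ | ⟨h, h'⟩ | ⟨h, h'⟩)
        · exact h.ne rfl
        · exact e1 (h.symm.trans h')
        · exact e1 (h'.symm.trans h)
        · exact e2 (h.symm.trans h')
        · exact e2 (h'.symm.trans h)⟩ }
  refine pmd_better H M M' hO ?_ ?_ ?_ u hn x (Or.inr (Or.inl ⟨rfl, rfl⟩))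
  · rintro a b c (⟨h, h1, h2, h3, h4⟩ | ⟨h, h'⟩ | ⟨h, h'⟩ | ⟨h, h'⟩ | ⟨h, h'⟩)
      (⟨g, g1, g2, g3, g4⟩ | ⟨g, g'⟩ | ⟨g, g'⟩ | ⟨g, g'⟩ | ⟨g, g'⟩)
    · exact hO.1 a b c h g
    · subst g; exact absurd h (hn b)
    · exact absurd g h1
    · subst g; exact absurd h (hm b)
    · exact absurd g h2
    · subst h; exact absurd g (hn c)
    · rw [h', g']
    · exact absurd (h.symm.trans g) e1
    · exact absurd (h.symm.trans g) huv
    · exact absurd (h.symm.trans g) e4
    · exact absurd h g1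
    · exact absurd (g.symm.trans h) e1
    · rw [h', g']
    · exact absurd (g.symm.trans h) e5
    · exact absurd (h.symm.trans g) e3
    · subst h; exact absurd g (hm c)
    · exact absurd (g.symm.trans h) huv
    · exact absurd (h.symm.trans g) e5
    · rw [h', g']
    · exact absurd (h.symm.trans g) e2
    · exact absurd h g2
    · exact absurd (g.symm.trans h) e4
    · exact absurd (g.symm.trans h) e3
    · exact absurd (g.symm.trans h) e2
    · rw [h', g']
  · rintro a b (⟨h, -⟩ | ⟨h, h'⟩ | ⟨h, h'⟩ | ⟨h, h'⟩ | ⟨h, h'⟩)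
    · exact hO.2.1 h
    · subst h; subst h'; exact hux
    · subst h; subst h'; exact hux.symm
    · subst h; subst h'; exact hvy
    · subst h; subst h'; exact hvy.symm
  · intro z w h
    by_cases hz : z = x
    · exact ⟨u, Or.inr (Or.inr (Or.inl ⟨hz, rfl⟩))⟩
    by_cases hz' : z = y
    · exact ⟨v, Or.inr (Or.inr (Or.inr (Or.inr ⟨hz', rfl⟩)))⟩
    refine ⟨w, Or.inl ⟨h, hz, hz', ?_, ?_⟩⟩
    · rintro rfl
      exact hz' (hO.1 _ _ _ h.symm hxy)
    · rintro rfl
      exact hz (hO.1 _ _ _ h.symm hxy.symm)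

theorem pmd_exists {V : Type} [Fintype V] (H : SimpleGraph V) : ∃ M, PmdOpt H M := by
  classical
  have hne : ({M : SimpleGraph V | Mat M ∧ M ≤ H} : Set (SimpleGraph V)).Nonempty :=
    ⟨⊥, fun u v w h => absurd h (by simp), bot_le⟩
  obtain ⟨M, hM, hmax⟩ := Set.exists_max_image {M : SimpleGraph V | Mat M ∧ M ≤ H}
    (fun M => {v | ∃ w, M.Adj v w}.ncard) (Set.toFinite _) hne
  exact ⟨M, hM.1, hM.2, fun M' h1 h2 => hmax M' ⟨h1, h2⟩⟩

/-- the number of covered vertices is even -/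
theorem pmd_even {V : Type} [Fintype V] (M : SimpleGraph V) (hM : Mat M) :
    Even {v | ∃ w, M.Adj v w}.ncard := by
  classical
  have h := M.even_card_odd_degree_vertices
  have h1 : {v | ∃ w, M.Adj v w}.ncard = (Finset.univ.filter fun v => Odd (M.degree v)).card := by
    rw [Set.ncard_eq_toFinset_card']
    congr 1
    ext v
    simp only [Set.mem_toFinset, Set.mem_setOf_eq, Finset.mem_filter, Finset.mem_univ, true_and]
    constructor
    · rintro ⟨w, hw⟩
      have h2 : M.neighborFinset v = {w} := by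
        ext x
        rw [SimpleGraph.mem_neighborFinset, Finset.mem_singleton]
        exact ⟨fun hx => hM v x w hx hw, fun hx => hx ▸ hw⟩
      rw [← SimpleGraph.card_neighborFinset_eq_degree, h2, Finset.card_singleton]
      exact odd_one
    · intro ho
      have h2 : 0 < M.degree v := ho.pos
      rw [SimpleGraph.degree_pos_iff_exists_adj] at h2
      exact h2
  rw [h1]
  exact h

theorem t_PMD : S_PMD := by
  classical
  intro V _ G hev hdeg
  obtain ⟨M, hO⟩ := pmd_exists G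
  refine ⟨M, hO.1, hO.2.1, ?_⟩
  by_contra hcon
  push Not at hcon
  obtain ⟨u, hn⟩ := hcon
  -- a second uncovered vertex
  have hv : ∃ v, u ≠ v ∧ ∀ w, ¬ M.Adj v w := by
    by_contra hno
    push Not at hno
    have h1 : {v | ∃ w, M.Adj v w} = ({u} : Set V)ᶜ := by
      ext z
      simp only [Set.mem_setOf_eq, Set.mem_compl_iff, Set.mem_singleton_iff]
      constructor
      · rintro ⟨w, hw⟩ rfl
        exact hn w hw
      · intro hz
        exact hno z (fun h => hz h.symm)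
    have h2 := pmd_even M hO.1
    rw [h1] at h2
    have h3 := Set.ncard_add_ncard_compl ({u} : Set V)
    rw [Set.ncard_singleton, Nat.card_eq_fintype_card] at h3
    rw [← h3] at hev
    obtain ⟨a, ha⟩ := hev
    obtain ⟨b, hb⟩ := h2
    omega
  obtain ⟨v, huv, hm⟩ := hv
  have hcov : ∀ x, G.Adj u x → ∃ y, M.Adj x y := fun x hx => pmd_case1 G M hO u x hn hx
  have hcov' : ∀ x, ∃ y, G.Adj u x → M.Adj x y := by
    intro x
    by_cases hx : G.Adj u x
    · obtain ⟨y, hy⟩ := hcov x hx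
      exact ⟨y, fun _ => hy⟩
    · exact ⟨x, fun h => absurd h hx⟩
  choose f hf using hcov'
  have hinj : Set.InjOn f {x | G.Adj u x} := by
    intro a ha b hb hab
    have h1 := (hf a ha).symm
    have h2 := (hf b hb).symm
    rw [← hab] at h2
    exact hO.1 _ _ _ h1 h2
  have himg : (f '' {x | G.Adj u x}).ncard = dg G u := Set.ncard_image_of_injOn hinj
  have hdisj : Disjoint (f '' {x | G.Adj u x}) {w | G.Adj v w} := by
    rw [Set.disjoint_left]
    rintro _ ⟨x, hx, rfl⟩ hvy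
    exact pmd_case2 G M hO u v x (f x) huv hn hm hx (hf x hx) hvy
  have hunion : (f '' {x | G.Adj u x} ∪ {w | G.Adj v w}).ncard = dg G u + dg G v := by
    rw [Set.ncard_union_eq hdisj (Set.toFinite _) (Set.toFinite _), himg]
    rfl
  have hu' : v ∉ (f '' {x | G.Adj u x} ∪ {w | G.Adj v w}) := by
    rintro (⟨x, hx, hxv⟩ | h)
    · have := hf x hx
      rw [hxv] at this
      exact hm _ this.symm
    · exact h.ne rfl
  have hins := Set.ncard_insert_of_notMem hu' (Set.toFinite _)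
  have hle := Set.ncard_le_ncard (Set.subset_univ
    (insert v (f '' {x | G.Adj u x} ∪ {w | G.Adj v w}))) (Set.toFinite _)
  rw [Set.ncard_univ, Nat.card_eq_fintype_card] at hle
  have h1 := hdeg u
  have h2 := hdeg v
  omega

end H467Del
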